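import Pool.Agent.P8H25.SpA

/-!
# The `K`-linear span of the realisation of a tensor category

The category `KC R` has the same objects as `C`, and the morphisms from `Y` to `Z` are the
`K`-linear combinations of the realisations of the morphisms of `C`. It is a `K`-linear rigid
symmetric monoidal category with a faithful realisation.
-/

set_option autoImplicit false
set_option linter.unusedSectionVars false

open CategoryTheory Limits MonoidalCategory Module
open Pool.Agent.Y112.SR Pool.Agent.Y112.KD Pool.Agent.N64.AF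
open Pool.Agent.Y116.MT (tr)
open Functor.LaxMonoidal Functor.OplaxMonoidal

namespace Pool.Agent.P8H88.SP

universe v u w t

variable {C : Type u} [Category.{v} C] [Preadditive C] [MonoidalCategory C]
  [SymmetricCategory C] {K : Type w} [Field K]

/-- The category with the objects of `C` and the spans of the realisations as morphisms. -/
structure KC (R : SuperRealisation C K) where
  /-- the underlying object -/
  as : C

variable {R : SuperRealisation C K}

lemma ck_of {Y Z : C} (f : Y ⟶ Z) : (R.H.map f).hom ∈ CK R Y Z :=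
  Submodule.subset_span ⟨f, rfl⟩

lemma ck_induction {Y Z : C} {p : (R.H.obj Y →ₗ[K] R.H.obj Z) → Prop}
    (hof : ∀ f : Y ⟶ Z, p (R.H.map f).hom) (h0 : p 0)
    (hadd : ∀ x y, p x → p y → p (x + y)) (hsmul : ∀ (a : K) x, p x → p (a • x))
    {x : R.H.obj Y →ₗ[K] R.H.obj Z} (hx : x ∈ CK R Y Z) : p x := by
  refine Submodule.span_induction (p := fun x _ => p x) ?_ h0 (fun x y _ _ => hadd x y)
    (fun a x _ => hsmul a x) hx
  rintro _ ⟨f, rfl⟩
  exact hof f

lemma ck_id (Y : C) : (LinearMap.id : R.H.obj Y →ₗ[K] R.H.obj Y) ∈ CK R Y Y := by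
  have h := ck_of (R := R) (𝟙 Y)
  rwa [CategoryTheory.Functor.map_id, ModuleCat.hom_id] at h

lemma ck_comp {X Y Z : C} {f : R.H.obj X →ₗ[K] R.H.obj Y} {g : R.H.obj Y →ₗ[K] R.H.obj Z}
    (hf : f ∈ CK R X Y) (hg : g ∈ CK R Y Z) : g ∘ₗ f ∈ CK R X Z := by
  refine ck_induction (p := fun f => g ∘ₗ f ∈ CK R X Z) (fun f => ?_) ?_ ?_ ?_ hf
  · refine ck_induction (p := fun g => g ∘ₗ (R.H.map f).hom ∈ CK R X Z) (fun g => ?_) ?_ ?_ ?_ hg
    · rw [← ModuleCat.hom_comp, ← Functor.map_comp]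
      exact ck_of _
    · rw [LinearMap.zero_comp]
      exact zero_mem _
    · intro x y hx hy
      rw [LinearMap.add_comp]
      exact add_mem hx hy
    · intro a x hx
      rw [LinearMap.smul_comp]
      exact Submodule.smul_mem _ _ hx
  · rw [LinearMap.comp_zero]
    exact zero_mem _
  · intro x y hx hy
    rw [LinearMap.comp_add]
    exact add_mem hx hy
  · intro a x hx
    rw [LinearMap.comp_smul]
    exact Submodule.smul_mem _ _ hx

namespace KC

instance : Category (KC R) where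
  Hom Y Z := CK R Y.as Z.as
  id Y := ⟨LinearMap.id, ck_id Y.as⟩
  comp f g := ⟨g.1 ∘ₗ f.1, ck_comp f.2 g.2⟩
  id_comp f := Subtype.ext (LinearMap.comp_id f.1)
  comp_id f := Subtype.ext (LinearMap.id_comp f.1)
  assoc f g h := Subtype.ext (LinearMap.comp_assoc f.1 g.1 h.1).symm

noncomputable instance : Preadditive (KC R) where
  homGroup Y Z := inferInstanceAs (AddCommGroup (CK R Y.as Z.as))
  add_comp _ _ _ f f' g := Subtype.ext (LinearMap.comp_add f.1 f'.1 g.1)
  comp_add _ _ _ _ _ _ := Subtype.ext (LinearMap.ext fun _ => rfl)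

noncomputable instance : Linear K (KC R) where
  homModule Y Z := inferInstanceAs (Module K (CK R Y.as Z.as))
  smul_comp _ _ _ r f g := Subtype.ext (LinearMap.comp_smul g.1 r f.1)
  comp_smul _ _ _ f r g := Subtype.ext (LinearMap.smul_comp r g.1 f.1)

/-- the underlying linear map -/
def lin {Y Z : KC R} (f : Y ⟶ Z) : R.H.obj Y.as →ₗ[K] R.H.obj Z.as := f.1

lemma lin_mem {Y Z : KC R} (f : Y ⟶ Z) : lin f ∈ CK R Y.as Z.as := f.2

lemma lin_injective {Y Z : KC R} {f g : Y ⟶ Z} (h : lin f = lin g) : f = g := Subtype.ext h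

/-- the morphism attached to a linear map -/
def mk' {Y Z : KC R} (f : R.H.obj Y.as →ₗ[K] R.H.obj Z.as) (hf : f ∈ CK R Y.as Z.as) : Y ⟶ Z :=
  ⟨f, hf⟩

lemma lin_mk' {Y Z : KC R} (f : R.H.obj Y.as →ₗ[K] R.H.obj Z.as) (hf : f ∈ CK R Y.as Z.as) :
    lin (mk' f hf) = f := rfl

lemma lin_id (Y : KC R) : lin (𝟙 Y) = LinearMap.id := rfl

lemma lin_comp {X Y Z : KC R} (f : X ⟶ Y) (g : Y ⟶ Z) : lin (f ≫ g) = lin g ∘ₗ lin f := rfl

lemma lin_add {Y Z : KC R} (f g : Y ⟶ Z) : lin (f + g) = lin f + lin g := rfl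

lemma lin_zero (Y Z : KC R) : lin (0 : Y ⟶ Z) = 0 := rfl

lemma lin_smul {Y Z : KC R} (a : K) (f : Y ⟶ Z) : lin (a • f) = a • lin f := rfl

/-- The functor from `C`. -/
def inc (R : SuperRealisation C K) : C ⥤ KC R where
  obj X := ⟨X⟩
  map f := mk' (R.H.map f).hom (ck_of f)
  map_id X := lin_injective (by
    rw [lin_mk', CategoryTheory.Functor.map_id, ModuleCat.hom_id]
    rfl)
  map_comp f g := lin_injective (by
    rw [lin_mk', Functor.map_comp, ModuleCat.hom_comp]
    rfl)

lemma lin_inc {Y Z : C} (f : Y ⟶ Z) : lin ((inc R).map f) = (R.H.map f).hom := rfl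

/-- The realisation functor. -/
def F (R : SuperRealisation C K) : KC R ⥤ ModuleCat.{w} K where
  obj X := R.H.obj X.as
  map f := ModuleCat.ofHom (lin f)
  map_id X := rfl
  map_comp f g := rfl

instance : (F R).Faithful where
  map_injective {X Y f g} h := lin_injective (congrArg ModuleCat.Hom.hom h)

instance : (F R).Additive where
  map_add := rfl

instance : (F R).Linear K where
  map_smul _ _ := rfl

lemma F_inc {Y Z : C} (f : Y ⟶ Z) : (F R).map ((inc R).map f) = R.H.map f := rfl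

/-- Induction over the morphisms. -/
lemma induction {Y Z : KC R} {p : (Y ⟶ Z) → Prop} (hof : ∀ f : Y.as ⟶ Z.as, p ((inc R).map f))
    (h0 : p 0) (hadd : ∀ x y, p x → p y → p (x + y)) (hsmul : ∀ (a : K) x, p x → p (a • x))
    (x : Y ⟶ Z) : p x := by
  have h : ∀ y : R.H.obj Y.as →ₗ[K] R.H.obj Z.as, y ∈ CK R Y.as Z.as →
      ∃ hy : y ∈ CK R Y.as Z.as, p (mk' y hy) := by
    intro y hy
    refine ck_induction (p := fun y => ∃ hy : y ∈ CK R Y.as Z.as, p (mk' y hy)) ?_ ?_ ?_ ?_ hy
    · exact fun f => ⟨ck_of f, hof f⟩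
    · exact ⟨zero_mem _, h0⟩
    · rintro x y ⟨hx, hx'⟩ ⟨hy, hy'⟩
      exact ⟨add_mem hx hy, hadd _ _ hx' hy'⟩
    · rintro a x ⟨hx, hx'⟩
      exact ⟨Submodule.smul_mem _ _ hx, hsmul _ _ hx'⟩
  obtain ⟨_, h2⟩ := h (lin x) (lin_mem x)
  exact h2

/-- whiskering on the left, on the level of linear maps -/
noncomputable def wl (X : C) {Y Z : C} (φ : R.H.obj Y →ₗ[K] R.H.obj Z) :
    R.H.obj (X ⊗ Y) →ₗ[K] R.H.obj (X ⊗ Z) :=
  ((Functor.Monoidal.μIso R.H X Y).inv ≫ (R.H.obj X ◁ ModuleCat.ofHom φ) ≫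
    (Functor.Monoidal.μIso R.H X Z).hom).hom

/-- whiskering on the right, on the level of linear maps -/
noncomputable def wr {Y Z : C} (φ : R.H.obj Y →ₗ[K] R.H.obj Z) (X : C) :
    R.H.obj (Y ⊗ X) →ₗ[K] R.H.obj (Z ⊗ X) :=
  ((Functor.Monoidal.μIso R.H Y X).inv ≫ (ModuleCat.ofHom φ ▷ R.H.obj X) ≫
    (Functor.Monoidal.μIso R.H Z X).hom).hom

lemma wl_of (X : C) {Y Z : C} (f : Y ⟶ Z) : wl X (R.H.map f).hom = (R.H.map (X ◁ f)).hom := by
  rw [wl, Functor.Monoidal.map_whiskerLeft]
  rfl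

lemma wr_of {Y Z : C} (f : Y ⟶ Z) (X : C) : wr (R.H.map f).hom X = (R.H.map (f ▷ X)).hom := by
  rw [wr, Functor.Monoidal.map_whiskerRight]
  rfl

lemma wl_add (X : C) {Y Z : C} (φ ψ : R.H.obj Y →ₗ[K] R.H.obj Z) :
    wl X (φ + ψ) = wl X φ + wl X ψ := by
  rw [wl, wl, wl, ModuleCat.ofHom_add, MonoidalPreadditive.whiskerLeft_add, Preadditive.add_comp,
    Preadditive.comp_add, ModuleCat.hom_add]

lemma wr_add {Y Z : C} (φ ψ : R.H.obj Y →ₗ[K] R.H.obj Z) (X : C) :
    wr (φ + ψ) X = wr φ X + wr ψ X := by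
  rw [wr, wr, wr, ModuleCat.ofHom_add, MonoidalPreadditive.add_whiskerRight, Preadditive.add_comp,
    Preadditive.comp_add, ModuleCat.hom_add]

lemma wl_smul (X : C) {Y Z : C} (a : K) (φ : R.H.obj Y →ₗ[K] R.H.obj Z) :
    wl X (a • φ) = a • wl X φ := by
  rw [wl, wl, show ModuleCat.ofHom (a • φ) = a • ModuleCat.ofHom φ from rfl, MonoidalLinear.whiskerLeft_smul, Linear.smul_comp,
    Linear.comp_smul, ModuleCat.hom_smul]

lemma wr_smul {Y Z : C} (a : K) (φ : R.H.obj Y →ₗ[K] R.H.obj Z) (X : C) :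
    wr (a • φ) X = a • wr φ X := by
  rw [wr, wr, show ModuleCat.ofHom (a • φ) = a • ModuleCat.ofHom φ from rfl, MonoidalLinear.smul_whiskerRight, Linear.smul_comp,
    Linear.comp_smul, ModuleCat.hom_smul]

lemma wl_mem (X : C) {Y Z : C} {φ : R.H.obj Y →ₗ[K] R.H.obj Z} (hφ : φ ∈ CK R Y Z) :
    wl X φ ∈ CK R (X ⊗ Y) (X ⊗ Z) := by
  refine ck_induction (p := fun φ => wl X φ ∈ CK R (X ⊗ Y) (X ⊗ Z)) ?_ ?_ ?_ ?_ hφ
  · intro f
    rw [wl_of]
    exact ck_of _
  · have h := wl_smul (R := R) X (0 : K) (0 : R.H.obj Y →ₗ[K] R.H.obj Z)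
    rw [zero_smul, zero_smul] at h
    rw [h]
    exact zero_mem _
  · intro x y hx hy
    rw [wl_add]
    exact add_mem hx hy
  · intro a x hx
    rw [wl_smul]
    exact Submodule.smul_mem _ _ hx

lemma wr_mem {Y Z : C} {φ : R.H.obj Y →ₗ[K] R.H.obj Z} (hφ : φ ∈ CK R Y Z) (X : C) :
    wr φ X ∈ CK R (Y ⊗ X) (Z ⊗ X) := by
  refine ck_induction (p := fun φ => wr φ X ∈ CK R (Y ⊗ X) (Z ⊗ X)) ?_ ?_ ?_ ?_ hφ
  · intro f
    rw [wr_of]
    exact ck_of _
  · have h := wr_smul (R := R) (0 : K) (0 : R.H.obj Y →ₗ[K] R.H.obj Z) X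
    rw [zero_smul, zero_smul] at h
    rw [h]
    exact zero_mem _
  · intro x y hx hy
    rw [wr_add]
    exact add_mem hx hy
  · intro a x hx
    rw [wr_smul]
    exact Submodule.smul_mem _ _ hx

noncomputable instance : MonoidalCategoryStruct (KC R) where
  tensorObj X Y := ⟨X.as ⊗ Y.as⟩
  tensorUnit := ⟨𝟙_ C⟩
  whiskerLeft X _ _ f := mk' (wl X.as (lin f)) (wl_mem X.as (lin_mem f))
  whiskerRight f X := mk' (wr (lin f) X.as) (wr_mem (lin_mem f) X.as)
  tensorHom {X₁ Y₁ X₂ Y₂} f g :=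
    (mk' (Y := ⟨X₁.as ⊗ X₂.as⟩) (Z := ⟨Y₁.as ⊗ X₂.as⟩) (wr (lin f) X₂.as)
        (wr_mem (lin_mem f) X₂.as)) ≫
      (mk' (Y := ⟨Y₁.as ⊗ X₂.as⟩) (Z := ⟨Y₁.as ⊗ Y₂.as⟩) (wl Y₁.as (lin g))
        (wl_mem Y₁.as (lin_mem g)))
  associator X Y Z := (inc R).mapIso (α_ X.as Y.as Z.as)
  leftUnitor X := (inc R).mapIso (λ_ X.as)
  rightUnitor X := (inc R).mapIso (ρ_ X.as)

/-- The data of the induced monoidal structure. -/
noncomputable def fData (R : SuperRealisation C K) : Monoidal.InducingFunctorData (F R) where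
  μIso X Y := Functor.Monoidal.μIso R.H X.as Y.as
  whiskerLeft_eq X Y Z f := rfl
  whiskerRight_eq f X := rfl
  tensorHom_eq {X₁ Y₁ X₂ Y₂} f g := by
    have h : (F R).map (f ⊗ₘ g) = ((Functor.Monoidal.μIso R.H X₁.as X₂.as).inv ≫
      (ModuleCat.ofHom (lin f) ▷ R.H.obj X₂.as) ≫ (Functor.Monoidal.μIso R.H Y₁.as X₂.as).hom) ≫
      ((Functor.Monoidal.μIso R.H Y₁.as X₂.as).inv ≫
      (R.H.obj Y₁.as ◁ ModuleCat.ofHom (lin g)) ≫ (Functor.Monoidal.μIso R.H Y₁.as Y₂.as).hom) := rfl
    rw [h, MonoidalCategory.tensorHom_def, Category.assoc, Category.assoc, Iso.hom_inv_id_assoc,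
      Category.assoc]
    rfl
  εIso := Functor.Monoidal.εIso R.H
  associator_eq X Y Z := by
    have h : (F R).map (α_ X Y Z).hom = R.H.map (α_ X.as Y.as Z.as).hom := rfl
    rw [h, Functor.Monoidal.map_associator]
    simp only [Iso.trans_hom, tensorIso_hom, Iso.refl_hom, tensorHom_id, Category.assoc]
    rfl
  leftUnitor_eq X := by
    have h : (F R).map (λ_ X).hom = R.H.map (λ_ X.as).hom := rfl
    rw [h, Functor.Monoidal.map_leftUnitor]
    simp only [Iso.trans_hom, tensorIso_hom, Iso.refl_hom, tensorHom_id, Category.assoc]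
    rfl
  rightUnitor_eq X := by
    have h : (F R).map (ρ_ X).hom = R.H.map (ρ_ X.as).hom := rfl
    rw [h, Functor.Monoidal.map_rightUnitor]
    simp only [Iso.trans_hom, tensorIso_hom, Iso.refl_hom, id_tensorHom, Category.assoc]
    rfl

noncomputable instance : MonoidalCategory (KC R) := Monoidal.induced (F R) (fData R)

noncomputable instance : (F R).Monoidal := Monoidal.fromInducedMonoidal (F R) (fData R)

instance : MonoidalPreadditive (KC R) := monoidalPreadditive_of_faithful (F R)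

instance : MonoidalLinear K (KC R) := MonoidalLinear.ofFaithful K (F R)

lemma inc_whiskerLeft (X : C) {Y Z : C} (f : Y ⟶ Z) :
    (inc R).map (X ◁ f) = (inc R).obj X ◁ (inc R).map f := by
  apply lin_injective
  exact (wl_of (R := R) X f).symm

lemma inc_whiskerRight {Y Z : C} (f : Y ⟶ Z) (X : C) :
    (inc R).map (f ▷ X) = (inc R).map f ▷ (inc R).obj X := by
  apply lin_injective
  exact (wr_of (R := R) f X).symm

/-- The braiding. -/
noncomputable def brd (X Y : KC R) : X ⊗ Y ≅ Y ⊗ X := (inc R).mapIso (β_ X.as Y.as)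

lemma brd_right (X : KC R) {Y Z : KC R} (f : Y ⟶ Z) :
    X ◁ f ≫ (brd X Z).hom = (brd X Y).hom ≫ f ▷ X := by
  refine induction (p := fun f => X ◁ f ≫ (brd X Z).hom = (brd X Y).hom ≫ f ▷ X) ?_ ?_ ?_ ?_ f
  · intro f
    have h := congrArg (inc R).map (BraidedCategory.braiding_naturality_right X.as f)
    rw [Functor.map_comp, Functor.map_comp, inc_whiskerLeft, inc_whiskerRight] at h
    exact h
  · rw [MonoidalPreadditive.whiskerLeft_zero, MonoidalPreadditive.zero_whiskerRight, zero_comp,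
      comp_zero]
  · intro x y hx hy
    rw [MonoidalPreadditive.whiskerLeft_add, MonoidalPreadditive.add_whiskerRight,
      Preadditive.add_comp, Preadditive.comp_add, hx, hy]
  · intro a x hx
    rw [MonoidalLinear.whiskerLeft_smul, MonoidalLinear.smul_whiskerRight,
      Linear.smul_comp, Linear.comp_smul, hx]

lemma brd_left {X Y : KC R} (f : X ⟶ Y) (Z : KC R) :
    f ▷ Z ≫ (brd Y Z).hom = (brd X Z).hom ≫ Z ◁ f := by
  refine induction (p := fun f => f ▷ Z ≫ (brd Y Z).hom = (brd X Z).hom ≫ Z ◁ f) ?_ ?_ ?_ ?_ f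
  · intro f
    have h := congrArg (inc R).map (BraidedCategory.braiding_naturality_left f Z.as)
    rw [Functor.map_comp, Functor.map_comp, inc_whiskerLeft, inc_whiskerRight] at h
    exact h
  · rw [MonoidalPreadditive.whiskerLeft_zero, MonoidalPreadditive.zero_whiskerRight, zero_comp,
      comp_zero]
  · intro x y hx hy
    rw [MonoidalPreadditive.whiskerLeft_add, MonoidalPreadditive.add_whiskerRight,
      Preadditive.add_comp, Preadditive.comp_add, hx, hy]
  · intro a x hx
    rw [MonoidalLinear.whiskerLeft_smul, MonoidalLinear.smul_whiskerRight,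
      Linear.smul_comp, Linear.comp_smul, hx]

noncomputable instance : SymmetricCategory (KC R) where
  braiding X Y := brd X Y
  braiding_naturality_right X _ _ f := brd_right X f
  braiding_naturality_left f Z := brd_left f Z
  hexagon_forward X Y Z := by
    have h := congrArg (inc R).map (BraidedCategory.hexagon_forward X.as Y.as Z.as)
    rw [Functor.map_comp, Functor.map_comp, Functor.map_comp, Functor.map_comp, inc_whiskerLeft,
      inc_whiskerRight] at h
    exact h
  hexagon_reverse X Y Z := by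
    have h := congrArg (inc R).map (BraidedCategory.hexagon_reverse X.as Y.as Z.as)
    rw [Functor.map_comp, Functor.map_comp, Functor.map_comp, Functor.map_comp, inc_whiskerLeft,
      inc_whiskerRight] at h
    exact h
  symmetry X Y := by
    have h := congrArg (inc R).map (SymmetricCategory.symmetry X.as Y.as)
    rw [Functor.map_comp, CategoryTheory.Functor.map_id] at h
    exact h

lemma inc_braiding (X Y : C) :
    (inc R).map (β_ X Y).hom = (β_ ((inc R).obj X) ((inc R).obj Y)).hom := rfl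

/-- The image of an exact pairing. -/
@[instance_reducible] noncomputable def exP (X Y : C) [ExactPairing X Y] :
    ExactPairing ((inc R).obj X) ((inc R).obj Y) where
  coevaluation' := (inc R).map (η_ X Y)
  evaluation' := (inc R).map (ε_ X Y)
  coevaluation_evaluation' := by
    have h := congrArg (inc R).map (ExactPairing.coevaluation_evaluation X Y)
    rw [Functor.map_comp, Functor.map_comp, Functor.map_comp, inc_whiskerLeft,
      inc_whiskerRight] at h
    exact h
  evaluation_coevaluation' := by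
    have h := congrArg (inc R).map (ExactPairing.evaluation_coevaluation X Y)
    rw [Functor.map_comp, Functor.map_comp, Functor.map_comp, inc_whiskerLeft,
      inc_whiskerRight] at h
    exact h

noncomputable instance [RightRigidCategory C] : RightRigidCategory (KC R) where
  rightDual X :=
    { rightDual := (inc R).obj (X.asᘁ)
      exact := exP (R := R) X.as (X.asᘁ) }

/-- The involution of `KC R`. -/
noncomputable def parK (X : KC R) : (F R).obj X ⟶ (F R).obj X := R.par X.as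

/-- The realisation of `KC R`. -/
noncomputable def KR (R : SuperRealisation C K) : SuperRealisation (KC R) K where
  H := F R
  finite X := R.finite X.as
  par X := R.par X.as
  par_sq X := R.par_sq X.as
  par_natural {X Y} f := by
    refine induction (p := fun f => (F R).map f ≫ parK Y = parK X ≫ (F R).map f)
      ?_ ?_ ?_ ?_ f
    · intro f
      exact R.par_natural f
    · rw [Functor.map_zero, zero_comp, comp_zero]
    · intro x y hx hy
      rw [Functor.map_add, Preadditive.add_comp, Preadditive.comp_add, hx, hy]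
    · intro a x hx
      have h : (F R).map (a • x) = a • (F R).map x := rfl
      rw [h, Linear.smul_comp, Linear.comp_smul, hx]
  par_unit := R.par_unit
  par_tensor X Y := R.par_tensor X.as Y.as
  symm X Y := R.symm X.as Y.as

lemma KR_faith {X Y : KC R} (f g : X ⟶ Y) (h : (KR R).H.map f = (KR R).H.map g) : f = g :=
  (F R).map_injective h

lemma KR_obj (X : KC R) : (KR R).H.obj X = R.H.obj X.as := rfl

lemma KR_map {X Y : KC R} (f : X ⟶ Y) : ((KR R).H.map f).hom = lin f := rfl

lemma KR_inc {X Y : C} (f : X ⟶ Y) : (KR R).H.map ((inc R).map f) = R.H.map f := rfl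

lemma KR_par (X : KC R) : (KR R).par X = R.par X.as := rfl

lemma KR_unit_aux {Λ : Type t} [Field Λ] [CategoryTheory.Linear Λ C] [Algebra Λ K]
    (hR : IsReal Λ R) (f : 𝟙_ C ⟶ 𝟙_ C) : ∃ q : K, R.H.map f = q • 𝟙 (R.H.obj (𝟙_ C)) := by
  obtain ⟨q, hq⟩ := hR.unit f
  refine ⟨algebraMap Λ K q, ?_⟩
  rw [hq, hR.lin, CategoryTheory.Functor.map_id]

theorem KR_real {Λ : Type t} [Field Λ] [CategoryTheory.Linear Λ C] [Algebra Λ K]
    (hR : IsReal Λ R) : IsReal K (KR R) where
  unit c := by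
    refine induction (p := fun c => ∃ q : K, c = q • 𝟙 (𝟙_ (KC R))) ?_ ?_ ?_ ?_ c
    · intro f
      obtain ⟨q, hq⟩ := KR_unit_aux hR f
      exact ⟨q, (F R).map_injective hq⟩
    · exact ⟨0, (zero_smul _ _).symm⟩
    · rintro x y ⟨a, rfl⟩ ⟨b, rfl⟩
      exact ⟨a + b, (add_smul _ _ _).symm⟩
    · rintro a x ⟨b, rfl⟩
      exact ⟨a * b, smul_smul _ _ _⟩
  lin a f := rfl

instance : (inc R).Additive where
  map_add {X Y f g} := lin_injective (by
    rw [lin_add, lin_inc, lin_inc, lin_inc, Functor.map_add, ModuleCat.hom_add]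
    rfl)

lemma inc_tensorHom {X₁ Y₁ X₂ Y₂ : C} (f : X₁ ⟶ Y₁) (g : X₂ ⟶ Y₂) :
    (inc R).map (f ⊗ₘ g) = (inc R).map f ⊗ₘ (inc R).map g := by
  rw [MonoidalCategory.tensorHom_def, MonoidalCategory.tensorHom_def, Functor.map_comp,
    inc_whiskerLeft, inc_whiskerRight]
  rfl

lemma inc_associator (X Y Z : C) : (inc R).map (α_ X Y Z).hom =
    (α_ ((inc R).obj X) ((inc R).obj Y) ((inc R).obj Z)).hom := rfl

lemma inc_associator_inv (X Y Z : C) : (inc R).map (α_ X Y Z).inv =
    (α_ ((inc R).obj X) ((inc R).obj Y) ((inc R).obj Z)).inv := rfl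

lemma inc_leftUnitor (X : C) : (inc R).map (λ_ X).hom = (λ_ ((inc R).obj X)).hom := rfl

lemma inc_leftUnitor_inv (X : C) : (inc R).map (λ_ X).inv = (λ_ ((inc R).obj X)).inv := rfl

lemma inc_rightUnitor (X : C) : (inc R).map (ρ_ X).hom = (ρ_ ((inc R).obj X)).hom := rfl

lemma inc_rightUnitor_inv (X : C) : (inc R).map (ρ_ X).inv = (ρ_ ((inc R).obj X)).inv := rfl

lemma inc_tp (X : C) (n : ℕ) : (inc R).obj (tp X n) = tp ((inc R).obj X) n := by
  induction n with
  | zero => rfl
  | succ n ih =>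
    change (inc R).obj (tp X n) ⊗ (inc R).obj X = tp ((inc R).obj X) n ⊗ (inc R).obj X
    rw [ih]

lemma as_tp (X : C) (n : ℕ) : (tp ((inc R).obj X) n).as = tp X n := by
  rw [← inc_tp]
  rfl

lemma st_inc {X : C} (a : X ⟶ X) : A1aux.st (KR R) ((inc R).map a) = A1aux.st R a := rfl

section Rigid

variable [RightRigidCategory C]

lemma inc_dual (X : C) : (inc R).obj (Xᘁ) = ((inc R).obj X)ᘁ := rfl

lemma inc_coev (X : C) :
    (inc R).map (η_ X Xᘁ) = η_ ((inc R).obj X) ((inc R).obj X)ᘁ := rfl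

lemma inc_ev (X : C) :
    (inc R).map (ε_ X Xᘁ) = ε_ ((inc R).obj X) ((inc R).obj X)ᘁ := rfl

lemma inc_tr {X : C} (a : X ⟶ X) : (inc R).map (tr a) = tr ((inc R).map a) := by
  rw [tr, tr, Functor.map_comp, Functor.map_comp, Functor.map_comp, inc_whiskerRight]
  rfl

/-- The realisation of `KC R` has all the properties of the one percent law. -/
theorem nice [CharZero K] {Λ : Type t} [Field Λ] [CategoryTheory.Linear Λ C] [Algebra Λ K]
    (hR : IsReal Λ R) : Pool.Agent.P8H25.Sp.Nice (KR R) where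
  real := KR_real hR
  faith := KR_faith

end Rigid

/-- `C⁺` over `K`: the parity of `M` is a combination of realisations of endomorphisms. -/
lemma cplus_iff (M : KC R) : (KR R).CPlus M ↔
    ∃ φ ∈ CK R M.as M.as, (2 : K) • φ = LinearMap.id + (R.par M.as).hom := by
  constructor
  · rintro ⟨f, hf⟩
    exact ⟨lin f, lin_mem f, congrArg ModuleCat.Hom.hom hf⟩
  · rintro ⟨φ, hφ, h⟩
    exact ⟨mk' φ hφ, ModuleCat.hom_ext h⟩

end KC

end Pool.Agent.P8H88.SP
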